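import Pool.Agent.N375.AV.D
import Pool.Agent.K6.H40.ShortGoldbach

/-!
# Goldbach with a prime in `(√n, 4 √n)` and a rough second summand near the values of compositions of additive functions

Let `F = f_1 ∘ ⋯ ∘ f_k` be a composition of functions dominated by the largest prime factor: for example additive functions
`f` with `f (q ^ j) ≤ C q ^ j` at the prime powers and different values at different large primes (the sum of the prime
factors, with or without multiplicity), the largest prime factor itself, and Kempner's function. Let `G` have steps bounded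
below by a positive constant and growth at most `v ^ d`, for example `α v ^ d` with `α > 0`, `d ≥ 1`. Let `0 < u < 3 / 8` and
`s > max (1 / 2) (4 u - 1 / 2)`. If `d s + κ < 1`, then for all `m ≤ N` but `K N exp (- c₀ (log N) ^ (1 / (k + 1)))` for ALL
even `n` within `F(m) ^ κ` of `G (F m)` there are at least `δ 𝔖(n) √n / (log n) ^ 2` primes `p` in `(√n, 4 √n)` such that all
prime factors of `n - p` are larger than `n ^ u`. For `u = 1 / 3` (`s > 5 / 6`) the number `n - p` is a prime or a product of
two primes.

The number `F(m)` is in general much smaller than `m` and the values of `F` are taken with very large multiplicities, and so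
this does not follow from the size of the exceptional set alone.

Proof. The number of the exceptional even numbers up to `X` is at most `X ^ s` by the starting theorem
`RoughSummandShortPrime` of this problem. The preimage of a set with at most `K X exp (- c (log X) ^ β)` elements up to `X`
under a function dominated by the largest prime factor has at most `K' X exp (- c' (log X) ^ (β / (1 + β)))` elements (tool of
helper375, `N375/AV`).
-/

set_option autoImplicit false

namespace Pool.Agent.Results.MP_b58c63_nt.AdditiveValues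

open Pool.Agent.N733.TG (Expanding expanding_pow)
open Pool.Agent.N375.AV (PD comp good_nat pd_additive pd_sopfr pd_largest pd_kempner)
open Pool.Agent.K6.H40.ShortGoldbach (Good count_nat)

/-- **Goldbach with a short prime and a rough summand near the values of compositions of additive functions.** Let
`0 < u < 3 / 8` and `s > max (1 / 2) (4 u - 1 / 2)`. There is `δ > 0` such that for all compositions `F = f_1 ∘ ⋯ ∘ f_k` of
functions dominated by the largest prime factor, `G` with steps `≥ a > 0` and growth at most `v ^ d`, and `κ ≥ 0` with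
`d s + κ < 1` there are `c₀ > 0` and `K` such that for every `N ≥ 1`, for all `m ≤ N` but
`K N exp (- c₀ (log N) ^ (1 / (k + 1)))`, EVERY even `n ≥ 1` with `|n - G (F m)| ≤ F(m) ^ κ` is `Good u δ`: there are at least
`δ 𝔖(n) √n / (log n) ^ 2` primes `p` with `√n < p < 4 √n` such that all prime factors of `n - p` are larger than `n ^ u`. The
additive functions with `f (q ^ j) ≤ C q ^ j` which are injective at the large primes, the sum of the prime factors with
multiplicity, the largest prime factor and Kempner's function are examples of such functions `f_i`, and `α v ^ d` with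
`α > 0`, `d ≥ 1` is an example of `G`. -/
theorem result :
    (∀ u s : ℝ, 0 < u → u < 3 / 8 → max (1 / 2) (4 * u - 1 / 2) < s → ∃ δ : ℝ, 0 < δ ∧
      ∀ fs : List (ℕ → ℕ), (∀ f ∈ fs, PD f) → ∀ (G : ℕ → ℝ) (d : ℝ), Expanding G d → ∀ κ : ℝ, 0 ≤ κ → d * s + κ < 1 →
      ∃ c₀ K : ℝ, 0 < c₀ ∧ ∀ N : ℕ, 1 ≤ N →
      ({m : ℕ | 1 ≤ m ∧ m ≤ N ∧ ¬ ∀ n : ℕ, 1 ≤ n → Even n → |(n : ℝ) - G (comp fs m)| ≤ (comp fs m : ℝ) ^ κ →
        Good u δ n}.ncard : ℝ) ≤ K * N * Real.exp (-(c₀ * Real.log N ^ ((1 : ℝ) / (fs.length + 1))))) ∧
    ((∀ f : ℕ → ℕ, (∀ a b : ℕ, Nat.Coprime a b → f (a * b) = f a + f b) →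
        (∃ C : ℕ, ∀ q j : ℕ, q.Prime → 1 ≤ j → f (q ^ j) ≤ C * q ^ j) →
        (∃ P : ℕ, ∀ p q : ℕ, p.Prime → q.Prime → P ≤ p → P ≤ q → f p = f q → p = q) → PD f) ∧
      PD (fun n => n.primeFactorsList.sum) ∧ PD (fun n => n.primeFactors.sup id) ∧
      PD (fun n => sInf {k : ℕ | n ∣ k.factorial})) ∧
    ∀ α d : ℝ, 0 < α → 1 ≤ d → Expanding (fun v => α * (v : ℝ) ^ d) d := by
  refine ⟨fun u s hu hu1 hs => ?_,
    ⟨fun _ h1 h2 h3 => pd_additive h1 h2 h3, pd_sopfr, pd_largest, pd_kempner⟩, fun α d hα hd => expanding_pow hα hd⟩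
  obtain ⟨δ, hδ, hcount⟩ := count_nat u s hu hu1 hs
  have hs0 : 0 ≤ s := by
    have := le_max_left (1 / 2 : ℝ) (4 * u - 1 / 2)
    linarith
  refine ⟨δ, hδ, fun fs hfs G d hG κ hκ h1 => ?_⟩
  exact good_nat (fun n => Even n) (Good u δ) fs hfs hG (s := s) (κ := κ) hs0 hκ h1 hcount

end Pool.Agent.Results.MP_b58c63_nt.AdditiveValues
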