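import Pool.Agent.K6.H40.RandNear
import Pool.Agent.K6.H40.ShortGoldbach

/-!
# Goldbach with a prime in `(√n, 4 √n)` and a rough second summand near the elements of random sets

Let `A` be a random set of positive integers such that `m` belongs to `A` with probability at most `D m ^ (-γ)` (no
independence is assumed). Let `G` be a function with steps bounded below by a positive constant and growth at most `v ^ d`,
for example `a v ^ d`, and `0 ≤ κ ≤ 1`; let `0 < u < 3 / 8` and `s > max (1 / 2) (4 u - 1 / 2)`. If `d s + κ < γ`, then almost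
surely, for all but finitely many `m ∈ A`, for ALL even `n` within `m ^ κ` of `G m` there are at least
`δ 𝔖(n) √n / (log n) ^ 2` primes `p` in `(√n, 4 √n)` such that all prime factors of `n - p` are larger than `n ^ u`; the
probability that this is false for some `m ≥ y` of `A` is at most `B y ^ (-η)` if `d s + κ + η < γ`. For `u = 1 / 3`
(`s > 5 / 6`) the number `n - p` is a prime or a product of two primes. For example the random sets may have
`X ^ (1 / 6 - ε)` elements up to `X` for `u = 1 / 3`, `G m = m`, and `X ^ (1 / 2 - ε)` elements for `u = 1 / 4`.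

Proof. The number of the exceptional even numbers up to `X` is at most `X ^ s` by the starting theorem
`RoughSummandShortPrime` of this problem. So the `m` such that there is one of them near `G m` form a set with
`O (X ^ (d s + κ + ε))` elements up to `X` (`N671/DA` of helper671), and the lemma of Borel and Cantelli applies
(`K6/H40/RandNear`).
-/

set_option autoImplicit false

namespace Pool.Agent.Results.MP_b58c63_nt.RandomSets

open MeasureTheory
open Pool.Agent.N671.DA (Expanding expanding_pow)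
open Pool.Agent.K6.H40.RandNear (Sparse rand_good_nat)
open Pool.Agent.K6.H40.ShortGoldbach (Good count_nat)

/-- **Goldbach with a short prime and a rough summand near the elements of random sets.** Let `0 < u < 3 / 8` and
`s > max (1 / 2) (4 u - 1 / 2)`. There is `δ > 0` such that for all `G` with steps `≥ a > 0` and growth at most `v ^ d`,
`0 ≤ κ ≤ 1`, and all random sets `A` of positive integers with `P (m ∈ A) ≤ D m ^ (-γ)` (`Sparse P A γ D`): (1) if
`d s + κ < γ`, almost surely, for all large `m ∈ A`, EVERY even `n ≥ 1` with `|n - G m| ≤ m ^ κ` is `Good u δ`: there are at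
least `δ 𝔖(n) √n / (log n) ^ 2` primes `p` with `√n < p < 4 √n` such that all prime factors of `n - p` are larger than
`n ^ u`; (2) if `d s + κ + η < γ`, `η ≥ 0`, this is false for some `m ∈ A`, `m ≥ y`, with probability at most `B y ^ (-η)`. The
functions `a v ^ d` with `a > 0`, `d ≥ 1` are examples of `G`. -/
theorem result :
    (∀ u s : ℝ, 0 < u → u < 3 / 8 → max (1 / 2) (4 * u - 1 / 2) < s → ∃ δ : ℝ, 0 < δ ∧
      ∀ (G : ℕ → ℝ) (d : ℝ), Expanding G d → ∀ κ : ℝ, 0 ≤ κ → κ ≤ 1 →
      ∀ (Ω : Type) [MeasurableSpace Ω] (P : Measure Ω) (A : Ω → Set ℕ) (γ D : ℝ), Sparse P A γ D →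
      (d * s + κ < γ → ∀ᵐ ω ∂P, ∃ N : ℕ, ∀ m ∈ A ω, N ≤ m → ∀ n : ℕ, 1 ≤ n → Even n → |(n : ℝ) - G m| ≤ (m : ℝ) ^ κ →
        Good u δ n) ∧
      ∀ η : ℝ, 0 ≤ η → d * s + κ + η < γ → ∃ B : ℝ, ∀ y : ℝ, 1 ≤ y →
        P {ω | ∃ m ∈ A ω, y ≤ (m : ℝ) ∧ ∃ n : ℕ, 1 ≤ n ∧ Even n ∧ ¬ Good u δ n ∧ |(n : ℝ) - G m| ≤ (m : ℝ) ^ κ} ≤
          ENNReal.ofReal (B * y ^ (-η))) ∧
    ∀ α d : ℝ, 0 < α → 1 ≤ d → Expanding (fun v => α * (v : ℝ) ^ d) d := by
  refine ⟨fun u s hu hu1 hs => ?_, fun α d hα hd => expanding_pow hα hd⟩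
  obtain ⟨δ, hδ, hcount⟩ := count_nat u s hu hu1 hs
  have hs0 : 0 ≤ s := by
    have := le_max_left (1 / 2 : ℝ) (4 * u - 1 / 2)
    linarith
  refine ⟨δ, hδ, fun G d hG κ hκ hκ1 Ω _ P A γ D hA => ?_⟩
  exact rand_good_nat (fun n => Even n) (Good u δ) hG (s := s) (κ := κ) hs0 hκ hκ1 hcount hA

end Pool.Agent.Results.MP_b58c63_nt.RandomSets
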