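import Pool.Agent.N671.DA.Win
import Pool.Agent.K6.H40.ShortGoldbach

/-!
# Goldbach with a prime in `(√n, 4 √n)` and a rough second summand near functions of the denominators of good approximations

Let `α_1, …, α_m` be real numbers. We consider the natural numbers `q` with `‖q α_j - β_j‖ ≤ c q ^ (-τ)` for all `j`, `‖x‖`
the distance to the nearest integer; for `β = 0`, `c = 1`, `τ = 1 / m` these include the denominators of all best
simultaneous approximations (the denominators of the convergents for `m = 1`). They form a very sparse sequence, with gaps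
growing exponentially for almost all `α` if `τ = 1 / m`. We show: let `G` be a function with steps bounded below by a positive
constant and growth at most `v ^ d`, for example `a v ^ d`, and `0 ≤ κ ≤ 1`; let `0 < u < 3 / 8` and
`s > max (1 / 2) (4 u - 1 / 2)`. For all `α` in `ℝ^m` outside a set of Hausdorff dimension at most
`(m + d s + κ) / (1 + τ)`, and all `c`, for all but finitely many such `q`, for ALL even `n` within `q ^ κ` of `G q` there are
at least `δ 𝔖(n) √n / (log n) ^ 2` primes `p` in `(√n, 4 √n)` such that all prime factors of `n - p` are larger than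
`n ^ u`. For `τ = 1 / m` the bound is less than `m` if `d s + κ < 1`; and so the statement holds for almost all `α`. For
`u = 1 / 3` (`s > 5 / 6`) the number `n - p` is a prime or a product of two primes.

Proof. The number of the exceptional even numbers up to `X` is at most `X ^ s` by the starting theorem
`RoughSummandShortPrime` of this problem. So the `q` such that there is one of them near `G q` form a set with
`O (X ^ (d s + κ + ε))` elements up to `X`; and the `α` with `‖q α_j - β_j‖ ≤ c q ^ (-τ)` for all `j` and infinitely many `q`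
of such a set are covered by few small cubes (tool of helper671, `N671/DA`).
-/

set_option autoImplicit false

namespace Pool.Agent.Results.MP_b58c63_nt.SimultaneousApproximations

open Pool.Agent.N671.DA (Solves Expanding expanding_pow approx_good_nat)
open Pool.Agent.K6.H40.ShortGoldbach (Good count_nat)

/-- **Goldbach with a short prime and a rough summand near the denominators of good approximations.** Let `0 < u < 3 / 8`
and `s > max (1 / 2) (4 u - 1 / 2)`. There is `δ > 0` such that for all `G` with steps `≥ a > 0` and growth at most `v ^ d`,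
`0 ≤ κ ≤ 1`, `β` in `ℝ^m` and `τ > 0`, for all `α` in `ℝ^m` outside a set of Hausdorff dimension at most
`(m + d s + κ) / (1 + τ)` and all `c`, for all large `q` with `‖q α_j - β_j‖ ≤ c q ^ (-τ)` for all `j`
(`Solves α β q (c q ^ (-τ))`), EVERY even `n ≥ 1` with `|n - G q| ≤ q ^ κ` is `Good u δ`: there are at least
`δ 𝔖(n) √n / (log n) ^ 2` primes `p` with `√n < p < 4 √n` such that all prime factors of `n - p` are larger than `n ^ u`. In
particular, for `τ = 1 / m` and `d s + κ < 1` this holds for all `α` outside a set of dimension less than `m`. The functions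
`a v ^ d` with `a > 0`, `d ≥ 1` are examples of `G`. -/
theorem result :
    (∀ u s : ℝ, 0 < u → u < 3 / 8 → max (1 / 2) (4 * u - 1 / 2) < s → ∃ δ : ℝ, 0 < δ ∧
      ∀ (G : ℕ → ℝ) (d : ℝ), Expanding G d → ∀ κ : ℝ, 0 ≤ κ → κ ≤ 1 →
      ∀ (m : ℕ) (β : Fin m → ℝ) (τ : ℝ), 0 < τ →
      ∃ E : Set (Fin m → ℝ), dimH E ≤ ENNReal.ofReal ((m + (d * s + κ)) / (1 + τ)) ∧
        ∀ α, α ∉ E → ∀ c : ℝ, ∃ Q : ℕ, ∀ q : ℕ, Q ≤ q → Solves α β q (c * (q : ℝ) ^ (-τ)) →
          ∀ n : ℕ, 1 ≤ n → Even n → |(n : ℝ) - G q| ≤ (q : ℝ) ^ κ → Good u δ n) ∧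
    (∀ (m : ℕ) (s : ℝ), 1 ≤ m → s < 1 → ((m : ℝ) + s) / (1 + 1 / (m : ℝ)) < m) ∧
    ∀ α d : ℝ, 0 < α → 1 ≤ d → Expanding (fun v => α * (v : ℝ) ^ d) d := by
  refine ⟨fun u s hu hu1 hs => ?_, fun m s hm hs => ?_, fun α d hα hd => expanding_pow hα hd⟩
  · obtain ⟨δ, hδ, hcount⟩ := count_nat u s hu hu1 hs
    have hs0 : 0 ≤ s := by
      have := le_max_left (1 / 2 : ℝ) (4 * u - 1 / 2)
      linarith
    refine ⟨δ, hδ, fun G d hG κ hκ hκ1 m β τ hτ => ?_⟩
    exact approx_good_nat (fun n => Even n) (Good u δ) hG (s := s) (κ := κ) hs0 hκ hκ1 hcount β hτ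
  · have hm0 : (0 : ℝ) < m := by exact_mod_cast (by omega : 0 < m)
    rw [div_lt_iff₀ (by positivity)]
    field_simp
    nlinarith

end Pool.Agent.Results.MP_b58c63_nt.SimultaneousApproximations
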