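import Pool.Agent.N760.IT.C
import Pool.Agent.K6.H40.ShortGoldbach

/-!
# Goldbach with a prime in `(√n, 4 √n)` and a rough second summand near the members of almost all orbits of Euler's function

Let `φ_k` be the `k`-th iterate of Euler's function, `φ_0(m) = m`. Let `f` be a positive multiplicative function of at most
polynomial growth such that `f p ≤ M p` for the large primes `p`, with different values at different large primes; for
example the identity, Euler's function or the sum of the divisors. Let `G` have steps bounded below by a positive constant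
and growth at most `v ^ d`, for example `α v ^ d` with `α > 0`, `d ≥ 1`. Let `0 < u < 3 / 8` and
`s > max (1 / 2) (4 u - 1 / 2)`. If `d s + κ < 1`, then there is a function `K(m)` tending to infinity such that for almost
all `m`, for all `k ≤ K(m)`, with `v = f(φ_k(m))`, for ALL even `n` within `v ^ κ` of `G v` there are at least
`δ 𝔖(n) √n / (log n) ^ 2` primes `p` in `(√n, 4 √n)` such that all prime factors of `n - p` are larger than `n ^ u`. For
`u = 1 / 3` (`s > 5 / 6`) the number `n - p` is a prime or a product of two primes.

The iterates of Euler's function are not multiplicative, their values form a very thin set and are taken with very large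
multiplicities, and so this does not follow from the size of the exceptional set alone, nor from the starting theorem
`MultiplicativeValues` of this problem.

Proof. The number of the exceptional even numbers up to `X` is at most `X ^ s` by the starting theorem
`RoughSummandShortPrime` of this problem; then the tool of helper760 (`N760/IT`) on the orbits of Euler's function applies.
-/

set_option autoImplicit false

namespace Pool.Agent.Results.MP_b58c63_nt.TotientOrbits

open Filter
open Pool.Agent.N733.TG (LM Expanding lm_totient lm_sigma expanding_pow)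
open Pool.Agent.N760.IT (orb lm_id orbit_good_nat)
open Pool.Agent.N826.IT.Orb (AlmostAll almostAll_mono)
open Pool.Agent.K6.H40.ShortGoldbach (Good count_nat)

/-- **Goldbach with a short prime and a rough summand near the orbits of Euler's function.** `orb f k m` is `f(φ_k(m))`,
`φ_k` the `k`-th iterate of Euler's function, `φ_0(m) = m`. Let `0 < u < 3 / 8` and `s > max (1 / 2) (4 u - 1 / 2)`. There is
`δ > 0` such that for all positive multiplicative `f` of at most polynomial growth, with `f p ≤ M p` at the large primes, and
injective there, for all `G` with steps `≥ a > 0` and growth at most `v ^ d`, and `κ ≥ 0` with `d s + κ < 1`, there is `K(m)`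
tending to infinity such that for almost all `m` (all `m ≤ N` but `o(N)`), for all `k ≤ K(m)`, EVERY even `n ≥ 1` with
`|n - G (f (φ_k m))| ≤ f(φ_k(m)) ^ κ` is `Good u δ`: there are at least `δ 𝔖(n) √n / (log n) ^ 2` primes `p` with
`√n < p < 4 √n` such that all prime factors of `n - p` are larger than `n ^ u`. The identity, Euler's function and the sum of
the divisors are examples of such functions `f`, and `α v ^ d` with `α > 0`, `d ≥ 1` is an example of `G`. -/
theorem result :
    (∀ u s : ℝ, 0 < u → u < 3 / 8 → max (1 / 2) (4 * u - 1 / 2) < s → ∃ δ : ℝ, 0 < δ ∧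
      ∀ f : ℕ → ℕ, LM f → ∀ (G : ℕ → ℝ) (d : ℝ), Expanding G d → ∀ κ : ℝ, 0 ≤ κ → d * s + κ < 1 →
      ∃ K : ℕ → ℕ, Tendsto K atTop atTop ∧
        AlmostAll (fun m => ∀ k ≤ K m, ∀ n : ℕ, 1 ≤ n → Even n → |(n : ℝ) - G (orb f k m)| ≤ (orb f k m : ℝ) ^ κ →
          Good u δ n)) ∧
    (LM (fun m => m) ∧ LM Nat.totient ∧ LM (fun m => ∑ d ∈ m.divisors, d)) ∧
    ∀ α d : ℝ, 0 < α → 1 ≤ d → Expanding (fun v => α * (v : ℝ) ^ d) d := by
  refine ⟨fun u s hu hu1 hs => ?_, ⟨lm_id, lm_totient, lm_sigma⟩, fun α d hα hd => expanding_pow hα hd⟩
  obtain ⟨δ, hδ, hcount⟩ := count_nat u s hu hu1 hs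
  have hs0 : 0 ≤ s := by
    have := le_max_left (1 / 2 : ℝ) (4 * u - 1 / 2)
    linarith
  refine ⟨δ, hδ, fun f hf G d hG κ hκ h1 => ?_⟩
  exact orbit_good_nat (fun n => Even n) (Good u δ) hf hG (s := s) (κ := κ) hs0 hκ h1 hcount

end Pool.Agent.Results.MP_b58c63_nt.TotientOrbits
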